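import Pool.Agent.H12L.Main

/-!
# Primes q for which a + qd is prime, for almost all pairs (a, d), at all scales

For 100% of all pairs `(a, d)` with `|a|, |d| ≤ H` (and of all systems of `m` pairs) the number of the primes `q ≤ N`
for which `|a + q d|` is a prime is asymptotically equal to the value predicted by Hardy and Littlewood, for all
`N` between `(log H) ^ (1 + δ)` and `H / (log H) ^ B` simultaneously; and there is no such prime
`q ≤ c log H log log H`: the range is sharp.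
-/

set_option autoImplicit false

namespace Pool.Agent.Results.MP_8bf9c2_nt.AlmostAllPairs

open Finset

/-- The systems of `m` pairs `(a_i, d_i)` of integers with `|a_i|, |d_i| ≤ H`. -/
noncomputable def box (m H : ℕ) : Finset (Fin m → ℤ × ℤ) :=
  Fintype.piFinset fun _ => Icc (-(H : ℤ)) H ×ˢ Icc (-(H : ℤ)) H

/-- The number of the primes `q ≤ N` for which all `|a_i + q d_i|` are primes. -/
def count {m : ℕ} (g : Fin m → ℤ × ℤ) (N : ℕ) : ℕ :=
  ((Icc 1 N).filter (fun q : ℕ => q.Prime ∧ ∀ i, ((g i).1 + (q : ℤ) * (g i).2).natAbs.Prime)).card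

/-- The sum of `1 / (log n ∏ log |a_i + n d_i|)` over the `2 ≤ n ≤ N` with all `|a_i + n d_i| ≥ 2`. -/
noncomputable def expected {m : ℕ} (g : Fin m → ℤ × ℤ) (N : ℕ) : ℝ :=
  ∑ n ∈ (Icc 2 N).filter (fun n : ℕ => ∀ i, 2 ≤ |(g i).1 + (n : ℤ) * (g i).2|),
    1 / (Real.log n * ∏ i, Real.log |(((g i).1 + (n : ℤ) * (g i).2 : ℤ) : ℝ)|)

/-- `ω(p)`: the number of the residues `n` modulo `p`, prime to `p`, with `∏ (a_i + n d_i) ≡ 0 (mod p)`. -/
def omega {m : ℕ} (p : ℕ) (g : Fin m → ℤ × ℤ) : ℕ :=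
  ((range p).filter (fun n : ℕ => ¬ p ∣ n ∧ (p : ℤ) ∣ ∏ i, ((g i).1 + (n : ℤ) * (g i).2))).card

/-- The constant of Hardy and Littlewood, the product over the primes `p ≤ z` of
`(1 - ω(p) / (p - 1)) (1 - 1 / p) ^ (-m)`. -/
noncomputable def const {m : ℕ} (z : ℕ) (g : Fin m → ℤ × ℤ) : ℝ :=
  ∏ p ∈ (Icc 1 z).filter Nat.Prime, (1 - (omega p g : ℝ) / (p - 1)) / (1 - 1 / (p : ℝ)) ^ m

/-- No local obstruction: for every prime `p` there is an `n` with `p ∤ n ∏ (a_i + n d_i)`. -/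
def Adm {m : ℕ} (g : Fin m → ℤ × ℤ) : Prop :=
  ∀ p : ℕ, p.Prime → ∃ n : ℤ, ¬ (p : ℤ) ∣ n * ∏ i, ((g i).1 + n * (g i).2)

open Pool.Agent.H13K Pool.Agent.H12P

/-- the array of a system -/
def conv {m : ℕ} (g : Fin m → ℤ × ℤ) : ∀ i : Fin m, Fin ((fun _ : Fin m => 1) i + 1) → ℤ := fun i => ![(g i).1, (g i).2]

lemma Fv_conv {m : ℕ} (g : Fin m → ℤ × ℤ) (i : Fin m) (n : ℤ) : Fv (conv g i) n = (g i).1 + n * (g i).2 := by
  unfold Fv conv
  rw [Fin.sum_univ_two]
  simp
  ring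

lemma count_eq {m : ℕ} (g : Fin m → ℤ × ℤ) (N : ℕ) : (count g N : ℝ) = P1 (conv g) N := by
  unfold P1 pr count
  rw [← filter_filter, card_filter, Nat.cast_sum]
  refine sum_congr rfl fun q _ => ?_
  rw [prod_boole]
  simp only [Fv_conv]
  simp

lemma expected_eq {m : ℕ} (g : Fin m → ℤ × ℤ) (N : ℕ) : expected g N = L1 (conv g) N := by
  unfold expected L1
  rw [sum_filter]
  refine sum_congr rfl fun n _ => ?_
  split_ifs with h
  · have h4 : Wf (conv g) (n : ℤ) = ∏ i, (1 / Real.log |(((g i).1 + (n : ℤ) * (g i).2 : ℤ) : ℝ)|) := by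
      unfold Wf lg
      refine prod_congr rfl fun i _ => ?_
      rw [Fv_conv]
      exact if_pos (h i)
    rw [h4, prod_div_distrib, prod_const_one, div_div, mul_comm]
  · push Not at h
    obtain ⟨i, hi⟩ := h
    have h4 : Wf (conv g) (n : ℤ) = 0 := by
      unfold Wf lg
      refine prod_eq_zero (mem_univ i) ?_
      rw [Fv_conv]
      exact if_neg (not_le.2 hi)
    rw [h4, zero_div]

lemma omega_eq {m : ℕ} (p : ℕ) (g : Fin m → ℤ × ℤ) : omega p g = om1 p (conv g) := by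
  unfold omega om1
  simp only [Fv_conv]

lemma const_eq {m : ℕ} (z : ℕ) (g : Fin m → ℤ × ℤ) : const z g = C1 z (conv g) := by
  unfold const C1
  simp only [omega_eq]
  rfl

lemma local_cond {m : ℕ} (g : Fin m → ℤ × ℤ) (p : ℕ) (hp : p.Prime)
    (h : ∃ n : ℤ, ¬ (p : ℤ) ∣ n * ∏ i, ((g i).1 + n * (g i).2)) : om1 p (conv g) ≠ p - 1 := by
  obtain ⟨n, hn⟩ := h
  have hpz : (p : ℤ) ≠ 0 := by exact_mod_cast hp.ne_zero
  obtain ⟨r, hr⟩ : ∃ r : ℕ, r = (n % p).toNat := ⟨_, rfl⟩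
  have hr0 : (r : ℤ) = n % p := by rw [hr]; exact Int.toNat_of_nonneg (Int.emod_nonneg _ hpz)
  have hrp : r < p := by
    have h1 : (r : ℤ) < p := by
      rw [hr0]
      exact Int.emod_lt_of_pos _ (by exact_mod_cast hp.pos)
    exact_mod_cast h1
  have hd : (p : ℤ) ∣ (r : ℤ) - n := by
    rw [hr0, ← neg_sub]
    exact (dvd_neg).2 Int.dvd_self_sub_emod
  have hpr : Prime (p : ℤ) := Nat.prime_iff_prime_int.1 hp
  have hr1 : ¬ p ∣ r := by
    intro h1
    have h2 : (p : ℤ) ∣ (r : ℤ) := by exact_mod_cast h1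
    have h3 : (p : ℤ) ∣ n := (dvd_iff_dvd_of_dvd_sub hd).1 h2
    exact hn (Dvd.dvd.mul_right h3 _)
  have hr2 : ¬ (p : ℤ) ∣ ∏ i, Fv (conv g i) (r : ℤ) := by
    intro h1
    obtain ⟨i, -, h2⟩ := (hpr.dvd_finsetProd_iff _).1 h1
    have h3 := Pool.Agent.H13K.CRT.Fv_congr (conv g i) p _ _ hd
    have h4 : (p : ℤ) ∣ Fv (conv g i) n := (dvd_iff_dvd_of_dvd_sub h3).1 h2
    rw [Fv_conv] at h4
    exact hn (Dvd.dvd.mul_left (h4.trans (dvd_prod_of_mem (fun i => (g i).1 + n * (g i).2) (mem_univ i))) _)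
  have hr3 : r ≠ 0 := fun h0 => hr1 (h0 ▸ dvd_zero p)
  have h5 : ((range p).filter (fun n : ℕ => ¬ p ∣ n ∧ (p : ℤ) ∣ ∏ i, Fv (conv g i) (n : ℤ))) ⊆ ((range p).erase 0).erase r := by
    intro x hx
    rw [mem_filter, mem_range] at hx
    rw [mem_erase, mem_erase, mem_range]
    refine ⟨fun h6 => hr2 (h6 ▸ hx.2.2), fun h6 => hx.2.1 (h6 ▸ dvd_zero p), hx.1⟩
  have h6 := card_le_card h5
  rw [card_erase_of_mem (mem_erase.2 ⟨hr3, mem_range.2 hrp⟩), card_erase_of_mem (mem_range.2 hp.pos), card_range] at h6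
  have h7 : om1 p (conv g) ≤ p - 1 - 1 := h6
  have := hp.two_le
  omega

lemma conv_inj {m : ℕ} : Function.Injective (conv (m := m)) := by
  intro g g' h
  funext i
  have h1 := congrFun (congrFun h i) 0
  have h2 := congrFun (congrFun h i) 1
  have h1' : (g i).1 = (g' i).1 := h1
  have h2' : (g i).2 = (g' i).2 := h2
  exact Prod.ext h1' h2'

lemma conv_mem {m : ℕ} (H : ℕ) (g : Fin m → ℤ × ℤ) (hg : g ∈ box m H) : conv g ∈ bx (fun _ : Fin m => 1) H := by
  unfold box at hg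
  rw [Fintype.mem_piFinset] at hg
  unfold bx
  rw [Fintype.mem_piFinset]
  intro i
  rw [Fintype.mem_piFinset]
  intro l
  have h1 := mem_product.1 (hg i)
  fin_cases l
  · exact h1.1
  · exact h1.2

lemma card_eq (m H : ℕ) : (bx (fun _ : Fin m => 1) H).card = (box m H).card := by
  unfold bx box
  rw [Fintype.card_piFinset, Fintype.card_piFinset]
  refine prod_congr rfl fun i _ => ?_
  rw [Fintype.card_piFinset, card_product]
  exact Fin.prod_univ_two _

lemma adm_one (a d : ℤ) : Adm (fun _ : Fin 1 => (a, d)) ↔ Int.gcd a d = 1 ∧ 2 ∣ a * d := by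
  unfold Adm
  simp only [univ_unique, Fin.default_eq_zero, Fin.isValue, prod_const, card_singleton, pow_one]
  constructor
  · intro h
    constructor
    · by_contra hg
      obtain ⟨p, hp, hpg⟩ := Nat.exists_prime_and_dvd hg
      obtain ⟨n, hn⟩ := h p hp
      have h1 : (p : ℤ) ∣ a := (Int.natCast_dvd_natCast.2 hpg).trans (Int.gcd_dvd_left a d)
      have h2 : (p : ℤ) ∣ d := (Int.natCast_dvd_natCast.2 hpg).trans (Int.gcd_dvd_right a d)
      exact hn (Dvd.dvd.mul_left (dvd_add h1 (Dvd.dvd.mul_left h2 n)) n)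
    · obtain ⟨n, hn⟩ := h 2 Nat.prime_two
      push_cast at hn
      by_contra h2
      rw [Int.two_dvd_ne_zero] at h2
      apply hn
      rw [← even_iff_two_dvd]
      have h3 : Odd (a * d) := Int.odd_iff.2 h2
      rw [Int.odd_mul] at h3
      rcases Int.even_or_odd n with h4 | h4
      · exact h4.mul_right _
      · exact Even.mul_left (h3.1.add_odd (h4.mul h3.2)) n
  · rintro ⟨hg, h2⟩ p hp
    have hpp : Prime (p : ℤ) := Nat.prime_iff_prime_int.1 hp
    have hnot : ¬ ((p : ℤ) ∣ a ∧ (p : ℤ) ∣ d) := by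
      rintro ⟨h3, h4⟩
      have h5 : (p : ℤ) ∣ (Int.gcd a d : ℤ) := Int.dvd_coe_gcd h3 h4
      rw [hg] at h5
      exact hpp.not_dvd_one (by exact_mod_cast h5)
    by_cases h1 : (p : ℤ) ∣ a + d
    · -- n = 2 (then p is odd)
      refine ⟨2, fun h3 => ?_⟩
      have hd : ¬ (p : ℤ) ∣ d := fun h4 => hnot ⟨(dvd_add_left h4).1 h1, h4⟩
      rcases hpp.dvd_or_dvd h3 with h4 | h4
      · have h5 : p ∣ 2 := by exact_mod_cast h4
        have h6 : p = 2 := (Nat.prime_dvd_prime_iff_eq hp Nat.prime_two).1 h5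
        rw [h6] at h1 hd hnot hpp
        push_cast at h1 hd hnot
        have ha : ¬ (2 : ℤ) ∣ a := fun h7 => hd ((dvd_add_right h7).1 h1)
        rcases (Int.prime_two.dvd_or_dvd h2) with h7 | h7
        · exact ha h7
        · exact hd h7
      · apply hd
        have e : d = (a + 2 * d) - (a + d) := by ring
        rw [e]
        exact dvd_sub h4 h1
    · refine ⟨1, fun h3 => ?_⟩
      rcases hpp.dvd_or_dvd h3 with h4 | h4
      · exact hpp.not_dvd_one h4
      · rw [one_mul] at h4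
        exact h1 h4

/-- Let `m ≥ 1`, `0 < δ ≤ 1` and `ε > 0`. There are `B`, `z₀`, `H₀` and `c > 0` such that for all `H ≥ H₀` there is a
set `Bad` of at most `ε #box` systems such that for all the other systems `(a_i, d_i)` of the box: all `d_i ≠ 0`;
there is no prime `q ≤ c (log H) ^ m log log H` for which all `|a_i + q d_i|` are primes; and if there is no local obstruction
then for all `z ≥ z₀` with `z ^ 4 ≤ H` the constant `C = const z` is positive and for all `N` with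
`(log H) ^ (m + δ) ≤ N ≤ H / (log H) ^ B` the number of the primes `q ≤ N` for which all `|a_i + q d_i|` are primes
is `C · expected` up to the factor `1 ± ε`, and `C · expected ≥ (log H) ^ (δ / 3)`. For one pair (`m = 1`) there is no
local obstruction if and only if `gcd (a, d) = 1` and `2 ∣ a d`. -/
theorem result :
    (∀ (m : ℕ) (δ ε : ℝ), 1 ≤ m → 0 < δ → δ ≤ 1 → 0 < ε → ∃ (B z₀ H₀ : ℕ) (c : ℝ), 0 < c ∧
      ∀ H : ℕ, H₀ ≤ H → ∃ Bad ⊆ box m H, (Bad.card : ℝ) ≤ ε * (box m H).card ∧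
      ∀ g ∈ box m H, g ∉ Bad → (∀ i, (g i).2 ≠ 0) ∧
        (∀ N : ℕ, (N : ℝ) ≤ c * (Real.log H ^ m * Real.log (Real.log H)) → count g N = 0) ∧
        (Adm g → ∀ z : ℕ, z₀ ≤ z → z ^ 4 ≤ H → 0 < const z g ∧
          ∀ N : ℕ, Real.log H ^ ((m : ℝ) + δ) ≤ N → (N : ℝ) * Real.log H ^ B ≤ H →
            Real.log H ^ (δ / 3) ≤ const z g * expected g N ∧
            |(count g N : ℝ) - const z g * expected g N| ≤ ε * (const z g * expected g N))) ∧
    ∀ a d : ℤ, Adm (fun _ : Fin 1 => (a, d)) ↔ Int.gcd a d = 1 ∧ 2 ∣ a * d := by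
  classical
  refine ⟨fun m δ ε hm hδ hδ1 hε => ?_, adm_one⟩
  obtain ⟨B, z0, H1, h1⟩ := Pool.Agent.H12L.Main.main m (fun _ => 1) hm (fun _ => le_rfl) δ (ε / 2) hδ hδ1 (by positivity)
  obtain ⟨c, H2, hc, h2⟩ := Pool.Agent.H12L.Few.few m hm (ε / 2) (by positivity)
  refine ⟨B, z0, max H1 H2, c, hc, fun H hH => ?_⟩
  obtain ⟨Bad1, hB1, hB2, hB3⟩ := h1 H ((le_max_left _ _).trans hH)
  obtain ⟨Bad2, hD1, hD2, hD3⟩ := h2 H ((le_max_right _ _).trans hH)
  refine ⟨(box m H).filter (fun g => conv g ∈ Bad1) ∪ Bad2, union_subset (filter_subset _ _) hD1, ?_, ?_⟩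
  · have e1 : (((box m H).filter (fun g => conv g ∈ Bad1)).card : ℝ) ≤ Bad1.card := by
      have h3 : ((box m H).filter (fun g => conv g ∈ Bad1)).card ≤ Bad1.card :=
        card_le_card_of_injOn conv (fun g hg => (mem_filter.1 hg).2) (fun g _ g' _ h => conv_inj h)
      exact_mod_cast h3
    have e2 : ((((box m H).filter (fun g => conv g ∈ Bad1) ∪ Bad2).card : ℕ) : ℝ) ≤
        ((box m H).filter (fun g => conv g ∈ Bad1)).card + Bad2.card := by exact_mod_cast card_union_le _ _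
    rw [card_eq] at hB2
    have hD2' : (Bad2.card : ℝ) ≤ ε / 2 * (box m H).card := hD2
    have e3 : ε * ((box m H).card : ℝ) = ε / 2 * (box m H).card + ε / 2 * (box m H).card := by ring
    linarith
  · intro g hg hgB
    rw [mem_union, not_or, mem_filter, not_and] at hgB
    obtain ⟨h3, h4⟩ := hB3 (conv g) (conv_mem H g hg) (hgB.1 hg)
    refine ⟨fun i => h3 i, fun N hN => ?_, fun hadm z hz hz4 => ?_⟩
    · unfold count
      rw [card_eq_zero, filter_eq_empty_iff]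
      rintro q hq ⟨hqp, hall⟩
      rw [mem_Icc] at hq
      exact hD3 g hg hgB.2 q (le_trans (by exact_mod_cast hq.2) hN) hqp hall
    · obtain ⟨h5, h6⟩ := h4 (fun p hp => local_cond g p hp (hadm p hp)) z hz hz4
      rw [const_eq]
      refine ⟨h5, fun N hN1 hN2 => ?_⟩
      obtain ⟨h7, h8⟩ := h6 N hN1 hN2
      rw [count_eq, expected_eq]
      refine ⟨h7, h8.trans ?_⟩
      have hL0 : 0 ≤ C1 z (conv g) * L1 (conv g) N := mul_nonneg h5.le (Fin.L1_nonneg _ _)
      exact mul_le_mul_of_nonneg_right (by linarith) hL0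

end Pool.Agent.Results.MP_8bf9c2_nt.AlmostAllPairs
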