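import Mathlib
import Pool.Agent.H12x.NC.Fus

/-!
# Nested compositions of arbitrary maps `x ↦ a + d x`

The pair `(a, d)` stands for the map `x ↦ a + d x`. Let `T_ρ = (T_ρ(0), T_ρ(1), ...)`, `ρ = 0, 1, 2, ...`, be countably many
ARBITRARY sequences of maps; for a finite set `β` of natural numbers let `T_ρ(β)` be the composition of the maps
`T_ρ(i)`, `i ∈ β`, those with smaller `i` first. It is assumed that the pairs `(a, d)` of all the `T_ρ(β)`, `β ≠ ∅`, are
coprime, with `d ≥ 1`, and different from the identity `(0, 1)`. The maps need not commute, and there is no relation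
between the different sequences.

Theorem. There is ONE sequence of nonempty finite sets `H_0 < H_1 < ...` (all elements of `H_m` are smaller than those of
`H_(m+1)`) such that for every `ρ` and all finite sets `α_0 < α_1 < ... < α_(L-1)` of numbers `≥ ρ` there are infinitely
many primes `q` for which the values at `q` of the maps

`T_ρ(H(α_0)), T_ρ(H(α_0 ∪ α_1)), ..., T_ρ(H(α_0 ∪ ... ∪ α_(L-1)))`,  `H(α) =` the union of the `H_m`, `m ∈ α`,

are all primes, whereas those of the members of any given finite set of other maps (except the identity) are not.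
With `S_m = T_ρ(H_m)` this says that all the numbers `q, S_(m_1) q, S_(m_2) S_(m_1) q, ...` are primes, for infinitely
many `q`, for ALL `ρ ≤ m_1 < m_2 < ... < m_k` (all `k`), and one can prescribe in addition that all the compositions with
some of the `S_m` left out, or any other maps, have composite values.

Example (constant sequences `T_ρ`, for all the countably many pairs): there are exponents `e_0, e_1, ...`, namely
`e_m = |H_m|`, such that for EVERY coprime pair `(a, d) ≠ (0, 1)`, `d ≥ 1`, and all but finitely many `m` the `e_m`-th iterate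
of `x ↦ a + d x` has the property of the question.

Proof. The rank argument of `Pool.Agent.H12x.UF` for trees of prime patterns, for positions which are chains of sets,
and an idempotent ultrafilter on the finite sets; the local conditions hold since the residues of the `T_ρ(β)` have an
idempotent limit in the semigroup of the affine maps modulo `p`. The prime number input is the theorem on infinite exact
prime patterns in sequences of linear forms of the starting files (`Pool.Agent.N790.IA.classes`).
-/

set_option autoImplicit false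

namespace Pool.Agent.Results.MP_8bf9c2_nt.BlockCompositions

open Finset

/-- the composition `g ∘ f`, where `(a, d)` stands for the map `x ↦ a + d x` -/
def comp (g f : ℤ × ℤ) : ℤ × ℤ := (g.1 + g.2 * f.1, g.2 * f.2)

/-- the composition of the maps `T i`, `i ∈ β`, those with smaller `i` first (the identity for `β = ∅`) -/
def along (T : ℕ → ℤ × ℤ) (β : Finset ℕ) : ℤ × ℤ :=
  if h : β.Nonempty then comp (T (β.max' h)) (along T (β.erase (β.max' h))) else (0, 1)
termination_by β.card
decreasing_by exact Finset.card_erase_lt_of_mem (max'_mem _ _)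

/-- a sequence of successive nonempty finite sets `H 0 < H 1 < ...` -/
def Blocks (H : ℕ → Finset ℕ) : Prop := (∀ m, (H m).Nonempty) ∧ ∀ m, ∀ i ∈ H m, ∀ j ∈ H (m + 1), i < j

/-- the map `g` has a prime value at `q` -/
def PrimeAt (g : ℤ × ℤ) (q : ℕ) : Prop := (g.1 + g.2 * q).toNat.Prime

/-- there are infinitely many primes `q` at which the maps `f 0, ..., f (L - 1)` have prime values, whereas those of any
given finite set of other maps (except the identity) do not have prime values -/
def Exact (L : ℕ) (f : ℕ → ℤ × ℤ) : Prop :=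
  ∀ S : Finset (ℤ × ℤ), (∀ g ∈ S, 1 ≤ g.2 ∧ g ≠ (0, 1) ∧ ∀ l < L, g ≠ f l) →
    {q : ℕ | q.Prime ∧ (∀ l < L, PrimeAt (f l) q) ∧ ∀ g ∈ S, ¬ PrimeAt g q}.Infinite

theorem along_eq (T : ℕ → ℤ × ℤ) (β : Finset ℕ) :
    along T β = (Pool.Agent.H12x.NC.tc (fun i => (T i).swap) β).swap := by
  induction β using Finset.induction_on_max with
  | empty =>
    rw [Pool.Agent.H12x.NC.tc_empty, along]
    simp
  | insert m β hmax ih =>
    have hm : m ∉ β := fun h1 => lt_irrefl _ (hmax m h1)
    have hmax' : (insert m β).max' (insert_nonempty m β) = m := by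
      apply le_antisymm
      · apply max'_le
        intro i hi
        rcases mem_insert.1 hi with rfl | h1
        · exact le_rfl
        · exact (hmax i h1).le
      · exact le_max' _ _ (mem_insert_self _ _)
    rw [Pool.Agent.H12x.NC.tc_insert _ hmax, along, dif_pos (insert_nonempty m β), hmax', erase_insert hm, ih]
    unfold comp Pool.Agent.H12x.NC.cmp
    ext
    · simp only [Prod.fst_swap, Prod.snd_swap]
      ring
    · simp only [Prod.snd_swap, Prod.fst_swap]

theorem blocks_succ {H : ℕ → Finset ℕ} : Blocks H ↔ Pool.Agent.H12x.NC.Succ H := by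
  constructor
  · intro h
    exact Pool.Agent.H12x.NC.Succ.of_blocks h
  · intro h
    exact ⟨h.ne, fun m => h.lt m (m + 1) (Nat.lt_succ_self m)⟩

theorem exact_of {T : ℕ → ℤ × ℤ} {L : ℕ} {B : ℕ → Finset ℕ}
    (h : Pool.Agent.H12x.NC.ExC (fun i => (T i).swap) ((range L).image B)) :
    Exact L (fun l => along T (B l)) := by
  intro S hS
  have h1 := h (S.image Prod.swap) (by
    intro g hg
    obtain ⟨g', hg', rfl⟩ := mem_image.1 hg
    obtain ⟨h2, h3, h4⟩ := hS g' hg'
    refine ⟨h2, fun h5 => ?_⟩
    rcases mem_insert.1 h5 with h6 | h6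
    · exact h3 (Prod.swap_injective (h6.trans rfl))
    · obtain ⟨β, hβ, h7⟩ := mem_image.1 h6
      obtain ⟨l, hl, rfl⟩ := mem_image.1 hβ
      refine h4 l (mem_range.1 hl) ?_
      change g' = along T (B l)
      rw [along_eq, h7, Prod.swap_swap])
  refine Set.Infinite.mono ?_ h1
  intro q hq
  refine ⟨?_, fun l hl => ?_, fun g hg => ?_⟩
  · have := hq.1 (1, 0) (mem_insert_self _ _)
    simpa using this
  · have h2 := hq.1 (Pool.Agent.H12x.NC.tc (fun i => (T i).swap) (B l))
      (mem_insert_of_mem (mem_image_of_mem _ (mem_image_of_mem _ (mem_range.2 hl))))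
    change ((along T (B l)).1 + (along T (B l)).2 * (q : ℤ)).toNat.Prime
    rw [along_eq, Prod.fst_swap, Prod.snd_swap, add_comm]
    exact h2
  · have h2 := hq.2 g.swap (mem_image_of_mem _ hg)
    unfold PrimeAt
    rw [add_comm]
    exact h2

theorem result : ∀ T : ℕ → ℕ → ℤ × ℤ, (∀ ρ, ∀ β : Finset ℕ, β.Nonempty →
      1 ≤ (along (T ρ) β).2 ∧ IsCoprime (along (T ρ) β).1 (along (T ρ) β).2 ∧ along (T ρ) β ≠ (0, 1)) →
    ∃ H, Blocks H ∧ ∀ (ρ : ℕ) (α : ℕ → Finset ℕ), Blocks α → (∀ i ∈ α 0, ρ ≤ i) → ∀ L : ℕ,
      Exact L (fun l => along (T ρ) (((range (l + 1)).biUnion α).biUnion H)) := by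
  intro T hT
  obtain ⟨H, hH, h⟩ := Pool.Agent.H12x.NC.main (fun ρ i => (T ρ i).swap) (by
    intro ρ β hβ
    obtain ⟨h1, h2, h3⟩ := hT ρ β hβ
    rw [along_eq] at h1 h2 h3
    refine ⟨h1, h2.symm, fun h4 => h3 ?_⟩
    rw [h4]
    rfl)
  exact ⟨H, blocks_succ.2 hH, fun ρ α hα hρ L => exact_of (h ρ α (blocks_succ.1 hα) hρ L)⟩

end Pool.Agent.Results.MP_8bf9c2_nt.BlockCompositions
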