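import Pool.Agent.H92.Pd.B2

/-!
# Primes `q` for which all `d_i q + a_i` are primes, with `a_i` near polynomial values at integers with random digits,
# all small slopes at the same time

The additive energy of integers close to the values of a real polynomial at integers with independent random digits is
as small as possible up to powers of the logarithm (`Pool.Agent.H92.Pd.energy_digits`). Method: a Weyl inequality for
polynomials of arbitrary degree at integers with independent random digits (`Pool.Agent.H92.Pd.weyl_scale`): the phases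
are differenced with respect to blocks of digits at variable positions. The energy gives the one-dimensional estimate
`Pool.Agent.H92.Pd.one_digits` with arbitrary coefficients; the passage to systems with all small slopes is from the
starting files (`Pool.Agent.N699.ST`).
-/

set_option autoImplicit false

namespace Pool.Agent.Results.MP_8bf9c2_nt.PolynomialDigitShifts

open Finset

/-- For `i < k` and `a < b` let `w i a` be the probability that the digit number `i` in base `b` is equal to `a`; no digit
has a probability larger than `1 - η`. -/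
structure Digits (b k : ℕ) (η : ℝ) (w : ℕ → ℕ → ℝ) : Prop where
  nonneg : ∀ i < k, ∀ a < b, 0 ≤ w i a
  sum : ∀ i < k, ∑ a ∈ range b, w i a = 1
  le : ∀ i < k, ∀ a < b, w i a ≤ 1 - η

/-- The probability of the integer `n < b ^ k`, if its `k` digits in base `b` are independent of each other. -/
noncomputable def prob (b k : ℕ) (w : ℕ → ℕ → ℝ) (n : ℕ) : ℝ := ∏ i ∈ range k, w i (n / b ^ i % b)

/-- For every prime `p` there is an `r` such that `p` divides neither `r` nor any `d i * r + a i`. -/
def Admissible {s : ℕ} (d a : Fin s → ℕ) : Prop := ∀ p : ℕ, p.Prime → ∃ r : ℕ, ¬ p ∣ r ∧ ∀ i, ¬ p ∣ d i * r + a i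

/-- The number of the residues `r < p` for which `p` divides `r * ∏ i, (d i * r + a i)`. -/
def nu {s : ℕ} (d a : Fin s → ℕ) (p : ℕ) : ℕ := ((range p).filter fun r => p ∣ r * ∏ i, (d i * r + a i)).card

/-- The partial product over the primes `p ≤ z` of the singular series. -/
noncomputable def sing {s : ℕ} (d a : Fin s → ℕ) (z : ℕ) : ℝ :=
  ∏ p ∈ (Icc 1 z).filter Nat.Prime, (1 - (nu d a p : ℝ) / p) / (1 - 1 / (p : ℝ)) ^ (s + 1)

/-- The number of the primes `q ≤ x` for which all `d i * q + a i` are primes. -/
def count {s : ℕ} (d a : Fin s → ℕ) (x : ℕ) : ℕ := ((Icc 1 x).filter fun q => q.Prime ∧ ∀ i, (d i * q + a i).Prime).card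

/-- The formula of Hardy and Littlewood for the primes `q ≤ x` with all `d i * q + a i` prime, where `log N` is the
approximate size of the logarithms of the primes: the singular series converges to some `S > 0`, the number of the
solutions weighted with the von Mangoldt function is `S x`, with an error of at most `x / log ^ U N`, and the number of
the solutions is `S x / log ^ (s + 1) N`, with a relative error of at most `ε`. -/
def Formula {s : ℕ} (ε : ℝ) (U N x : ℕ) (d a : Fin s → ℕ) : Prop :=
  ∃ S : ℝ, 0 < S ∧ Filter.Tendsto (sing d a) Filter.atTop (nhds S) ∧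
    |∑ n ∈ Icc 1 x, ArithmeticFunction.vonMangoldt n * ∏ i, ArithmeticFunction.vonMangoldt (d i * n + a i) - S * x| ≤
      x / Real.log N ^ U ∧
    |(count d a x : ℝ) - S * (x / Real.log N ^ (s + 1))| ≤ ε * (S * (x / Real.log N ^ (s + 1)))

/-- The formula holds for the constants `a`, for all `j ≤ log ^ C N`, for ALL admissible slopes `d i ≤ j`, and for the
primes `q ≤ N / j`. -/
def AllSlopes {s : ℕ} (ε : ℝ) (C U N : ℕ) (a : Fin s → ℕ) : Prop :=
  ∀ (j : ℕ) (d : Fin s → ℕ), (j : ℝ) ≤ Real.log N ^ C → (∀ i, 1 ≤ d i ∧ d i ≤ j) → Admissible d a →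
    Formula ε U N (N / j) d a

open Classical in
/-- Let `s ≥ 1`, bases `b_i ≥ 2` and degrees `e_i ≥ 2` (`i < s`), `A`, `B`, `C`, `U`, `W`, `η > 0` and `ε > 0` be fixed.
Let `N` be large, and let the numbers `k_i` of digits satisfy `N ≤ b_i ^ (e_i k_i) log ^ A N`. Let `n_i < b_i ^ k_i` be
independent random integers with independent digits in base `b_i`, no digit having a probability larger than `1 - η` (for
example, the digits lie in arbitrary sets of at least two digits, which depend on the place, with equal probabilities).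
Let `F_i` be polynomials with real coefficients of degrees of at most `e_i`, whose coefficients of `X ^ e_i` have absolute
values between `1 / log ^ A N` and `log ^ A N`, and with `0 ≤ F_i(n) ≤ B N` for all possible `n = n_i`; the other
coefficients are arbitrary.

Then, with a probability of at least `1 - 1 / log ^ U N`, ALL the vectors `a` of integers `a_i ≥ 0` with
`|a_i - F_i(n_i)| ≤ log ^ W N` have the following property: for all `j ≤ log ^ C N` and ALL slopes
`1 ≤ d_1, ..., d_s ≤ j` for which the system is admissible, the formula of Hardy and Littlewood holds for the number of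
the primes `q ≤ N / j` for which all `d_i q + a_i` are primes. -/
theorem result (s A B C U W : ℕ) (hs : 1 ≤ s) (b e : Fin s → ℕ) (hb : ∀ i, 2 ≤ b i) (he : ∀ i, 2 ≤ e i)
    (η ε : ℝ) (hη : 0 < η) (hε : 0 < ε) :
    ∃ N₀ : ℕ, ∀ N : ℕ, N₀ ≤ N → ∀ k : Fin s → ℕ, (∀ i, (N : ℝ) ≤ Real.log N ^ A * ((b i : ℝ) ^ k i) ^ e i) →
      ∀ w : Fin s → ℕ → ℕ → ℝ, (∀ i, Digits (b i) (k i) η (w i)) →
      ∀ F : Fin s → Polynomial ℝ, (∀ i, (F i).natDegree ≤ e i ∧ 1 / Real.log N ^ A ≤ |(F i).coeff (e i)| ∧
        |(F i).coeff (e i)| ≤ Real.log N ^ A) →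
      (∀ i, ∀ n < b i ^ k i, prob (b i) (k i) (w i) n ≠ 0 → 0 ≤ (F i).eval (n : ℝ) ∧ (F i).eval (n : ℝ) ≤ B * N) →
        ∑ n ∈ Fintype.piFinset (fun i => range (b i ^ k i)),
          (if ∀ a : Fin s → ℕ, (∀ i, |(a i : ℝ) - (F i).eval (n i : ℝ)| ≤ Real.log N ^ W) → AllSlopes ε C U N a then 0
            else ∏ i, prob (b i) (k i) (w i) (n i)) ≤ 1 / Real.log N ^ U := by
  obtain ⟨n1, h1⟩ := Pool.Agent.H92.Pd.consts hs b (fun i => e i - 1) hb (fun i => by have := he i; omega) A B C U W η hη ε hε
  choose n2 h2 using fun i => Pool.Agent.H92.Pd.k_pos (b i) (e i) A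
  have hd1 : ∀ i, e i - 1 + 1 = e i := fun i => by have := he i; omega
  simp only [hd1] at h1
  obtain ⟨Nt, hNt⟩ : ∃ Nt, Nt = ∑ i, n2 i := ⟨_, rfl⟩
  have hNi : ∀ i, n2 i ≤ Nt := fun i => by rw [hNt]; exact single_le_sum (f := n2) (fun _ _ => Nat.zero_le _) (mem_univ i)
  refine ⟨n1 + Nt, fun N hN k hNk w hw F hF hFB => ?_⟩
  have hk : ∀ i, 1 ≤ k i := fun i => h2 i N (by have := hNi i; omega) (k i) (hNk i)
  have hw' : ∀ i, Pool.Agent.H92.Pd.Digs (b i) (k i) η (w i) := fun i => ⟨(hw i).nonneg, (hw i).sum, (hw i).le⟩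
  have hP : ∀ i n, Pool.Agent.TH872.Sq.P (b i) (Pool.Agent.H92.Pd.ext (b i) (k i) (w i)) 0 (k i) n = prob (b i) (k i) (w i) n :=
    fun i n => Pool.Agent.H92.Pd.P_ext (hb i) (w i) n
  have h3 := h1 N (by omega) k (fun i => by
    rw [mul_comm (e i) (k i), pow_mul]
    exact hNk i) (fun i => Pool.Agent.H92.Pd.ext (b i) (k i) (w i))
    (fun i => Pool.Agent.H92.Pd.dig_ext (hb i) (hk i) (hw' i)) F (fun i => (hF i).1) (fun i => (hF i).2.1) (fun i => (hF i).2.2) (by
    intro i n hn hne
    rw [hP] at hne
    exact hFB i n hn hne)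
  simp only [hP] at h3
  exact h3

end Pool.Agent.Results.MP_8bf9c2_nt.PolynomialDigitShifts
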