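import Pool.Agent.H95SD.AffS

/-!
# One of the first three iterates of `x ↦ a + d x`, for almost all PRIMES `a` and in all long progressions

The pair `(a, d)` stands for the map `x ↦ a + d x`. Let `f` and `g ≠ id` be pairs which satisfy the hypotheses
of the question, with `f g = g^m f`: this means that `g` is a translation and `m` is the slope of `f`, or that
`f` and `g` commute and `m = 1`. A map is called good here if one of its first three iterates (four, if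
`3 ∣ d - 1` and `3 ∤ a` for the map `(a, d)`) takes at least `x / (log x) ^ B` primes up to `x` to primes, for
arbitrarily large `x`. `B` is absolute.

1. One of the maps `f, g f, g^2 f, ..., g^(ℓ-1) f` is good, where `ℓ` only depends on `m`. So the exponents `k`
for which `g^k f` satisfies the hypotheses of the question but is not good contain no `ℓ` terms of an arithmetic
progression.
2. `g^k f` is good for almost all PRIMES `k`, and for almost all elements `k` of every sifted set, in every long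
window. Example: for almost all primes `k` one of the `k`-th, `2k`-th, `3k`-th iterates of `x ↦ 2 x + 1` takes
infinitely many primes to primes (Cunningham chains).
3. `(a, d)` is good for almost all PRIMES `a` (and for almost all elements `a` of every sifted set, also for
`-a`), in every long window; this includes a version at every scale `x ≥ C a`. For `a` prime the hypotheses of
the question mean that `a` does not divide `d` and `2 ∣ a d`.

Starting files: the relative Szemerédi theorem for sifted sets (`Pool.Agent.Y843.HS.fin`), the coloured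
Maynard-Tao theorem with the constant `18 / 5` for uniform linear forms (`Pool.Agent.Y827.RO.lamR0`), the local
conditions for the maps `g^s f^e` (`Pool.Agent.Y863.AU.Af.arr`).
-/

set_option autoImplicit false

open Finset Filter

namespace Pool.Agent.Results.MP_8bf9c2_nt.PrimesAsShifts

/-- the composition `x ↦ g (f x)`, where the pair `(a, d)` stands for the map `x ↦ a + d x` -/
def comp (g f : ℤ × ℤ) : ℤ × ℤ := (g.1 + g.2 * f.1, g.2 * f.2)

/-- `x ↦ g^k (f x)` -/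
def pw (g : ℤ × ℤ) (k : ℕ) (f : ℤ × ℤ) : ℤ × ℤ := (comp g)^[k] f

/-- the hypotheses of the question: `d ≥ 1`, `a` prime to `d` and `2 ∣ a d` -/
def Adm (f : ℤ × ℤ) : Prop := 1 ≤ f.2 ∧ Int.gcd f.1 f.2 = 1 ∧ 2 ∣ f.1 * f.2

/-- the number of the primes `q ≤ x` which are mapped to primes -/
noncomputable def count (f : ℤ × ℤ) (x : ℕ) : ℕ :=
  {q : ℕ | q ≤ x ∧ q.Prime ∧ ∃ p : ℕ, p.Prime ∧ f.1 + q * f.2 = p}.ncard

open Classical in
/-- `4` if `3` divides `d - 1` and not `a`, otherwise `3`, for `f = (a, d)` -/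
noncomputable def R (f : ℤ × ℤ) : ℕ := if 3 ∣ f.2 - 1 ∧ ¬ 3 ∣ f.1 then 4 else 3

/-- one of the first `R f` iterates of `f` takes at least `x / (log x) ^ B` primes `q ≤ x` to primes -/
def GoodAt (B x : ℕ) (f : ℤ × ℤ) : Prop :=
  ∃ i, 1 ≤ i ∧ i ≤ R f ∧ (x : ℝ) / Real.log x ^ B ≤ (count (pw f i (0, 1)) x : ℝ)

/-- one of the first `R f` iterates of `f` takes at least `x / (log x) ^ B` primes `q ≤ x` to primes, for
arbitrarily large `x` -/
def Good (B : ℕ) (f : ℤ × ℤ) : Prop :=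
  ∃ i, 1 ≤ i ∧ i ≤ R f ∧ ∃ᶠ x : ℕ in atTop,
    (x : ℝ) / Real.log x ^ B ≤ (count (pw f i (0, 1)) x : ℝ)

/-- `n` avoids the residue classes of `Z p` modulo `p` for all primes `p ≤ H ^ κ`. -/
def Sifted (κ : ℝ) (H : ℕ) (Z : ℕ → Finset ℕ) (n : ℕ) : Prop :=
  ∀ p : ℕ, p.Prime → (p : ℝ) ≤ (H : ℝ) ^ κ → n % p ∉ Z p

/-- For all primes `p ≤ H ^ κ`, `Z p` is a set of at most `r` of the residues modulo `p`, not all of them. -/
def Sieve (r : ℕ) (κ : ℝ) (H : ℕ) (Z : ℕ → Finset ℕ) : Prop :=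
  ∀ p : ℕ, p.Prime → (p : ℝ) ≤ (H : ℝ) ^ κ → (Z p).card ≤ r ∧ (Z p).card < p ∧ ∀ c ∈ Z p, c < p

/-- The expected number of sifted elements of an interval of length `H`. -/
noncomputable def expected (κ : ℝ) (H : ℕ) (Z : ℕ → Finset ℕ) : ℝ :=
  H * ∏ p ∈ (Icc 1 ⌊(H : ℝ) ^ κ⌋₊).filter Nat.Prime, (1 - ((Z p).card : ℝ) / p)

open Classical in
/-- In the window `(u, u + H]` the property `P` holds for at most `ε H / log H` primes, and for at most `ε`
times the expected number of elements of every sifted set. -/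
def Few (r : ℕ) (κ ε : ℝ) (u H : ℕ) (P : ℕ → Prop) : Prop :=
  (((Ioc u (u + H)).filter (fun k => k.Prime ∧ P k)).card : ℝ) ≤ ε * (H / Real.log H) ∧
  ∀ Z : ℕ → Finset ℕ, Sieve r κ H Z →
    (((Ioc u (u + H)).filter (fun k => Sifted κ H Z k ∧ P k)).card : ℝ) ≤ ε * expected κ H Z

open Pool.Agent.Y863.AU Pool.Agent.W25.IT Pool.Agent.H95SD.AP

/-- the bridge to the monoid of the library -/
def toAf (f : ℤ × ℤ) : Af := ⟨f.1, f.2⟩

theorem toAf_pw (g f : ℤ × ℤ) (k : ℕ) : toAf (pw g k f) = toAf g ^ k * toAf f := by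
  unfold pw
  induction k with
  | zero => rw [pow_zero, one_mul]; rfl
  | succ k ih =>
    rw [Function.iterate_succ', Function.comp_apply, pow_succ', mul_assoc, ← ih]
    rfl

theorem eq_of_toAf {f g : ℤ × ℤ} (h : toAf f = toAf g) : f = g := by
  have h1 := congrArg Af.a h
  have h2 := congrArg Af.d h
  exact Prod.ext h1 h2

theorem adm_iff (f : ℤ × ℤ) : Adm f ↔ 1 ≤ (toAf f).d ∧ (toAf f).Adm := Iff.rfl

theorem ne_one_iff (f : ℤ × ℤ) : f ≠ (0, 1) ↔ toAf f ≠ 1 := by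
  constructor
  · intro h h1
    exact h (eq_of_toAf h1)
  · intro h h1
    exact h (by rw [h1]; rfl)

theorem rel_of {f g : ℤ × ℤ} {m : ℕ} (h : comp f g = pw g m f) :
    toAf f * toAf g = toAf g ^ m * toAf f := by
  rw [← toAf_pw, ← h]
  rfl

theorem R_eq (f : ℤ × ℤ) : R f = Rn (toAf f) := by
  unfold R Rn
  by_cases h : 3 ∣ f.2 - 1 ∧ ¬ 3 ∣ f.1
  · rw [if_pos h, if_pos (show Exc (toAf f) from h)]
  · rw [if_neg h, if_neg (show ¬ Exc (toAf f) from h)]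

theorem count_eq (f : ℤ × ℤ) (i x : ℕ) : count (pw f i (0, 1)) x = cA (toAf f ^ i) x := by
  have h1 : toAf (pw f i (0, 1)) = toAf f ^ i := by
    rw [toAf_pw]
    have h2 : toAf (0, 1) = 1 := rfl
    rw [h2, mul_one]
  rw [← h1]
  rfl

theorem goodAt_iff (B x : ℕ) (f : ℤ × ℤ) : GoodAt B x f ↔ GdAt B x (toAf f) := by
  unfold GoodAt GdAt
  simp only [count_eq, R_eq]

theorem good_iff (B : ℕ) (f : ℤ × ℤ) : Good B f ↔ Gd B (toAf f) := by
  unfold Good Gd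
  simp only [count_eq, R_eq]

theorem pos_pw {f g : ℤ × ℤ} (hf : Adm f) (hg : Adm g) (k : ℕ) : 1 ≤ (toAf g ^ k * toAf f).d := by
  rw [Af.mul_d, Af.pow_d]
  have h3 : 0 < (toAf g).d := by have := hg.1; show 0 < g.2; omega
  have h4 : 0 < (toAf f).d := by have := hf.1; show 0 < f.2; omega
  have h2 : 0 < (toAf g).d ^ k * (toAf f).d := by positivity
  omega

theorem expected_eq (κ : ℝ) (H : ℕ) (Z : ℕ → Finset ℕ) :
    expected κ H Z = H * Pool.Agent.Y843.HS.VV Z 0 ⌊(H : ℝ) ^ κ⌋₊ := rfl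

theorem sieve_primes (H : ℕ) : Sieve 1 (1 / 2) H (fun _ => {0}) := by
  intro p hp _
  refine ⟨by simp, ?_, fun c hc => ?_⟩
  · rw [card_singleton]; exact hp.one_lt
  · rw [mem_singleton.1 hc]; exact hp.pos

open Classical in
theorem few_of (r : ℕ) (κ ε : ℝ) (hε : 0 < ε) : ∃ H₁ : ℕ, ∀ H u : ℕ, H₁ ≤ H → ∀ P : ℕ → Prop,
    (∀ Z : ℕ → Finset ℕ, Sieve r κ H Z → ∀ A : Finset ℕ, A ⊆ Ioc u (u + H) →
      (∀ k ∈ A, Sifted κ H Z k) → (∀ k ∈ A, P k) →
      (A.card : ℝ) ≤ ε * H * Pool.Agent.Y843.HS.VV Z 0 ⌊(H : ℝ) ^ κ⌋₊) →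
    (∀ Z : ℕ → Finset ℕ, Sieve 1 (1 / 2) H Z → ∀ A : Finset ℕ, A ⊆ Ioc u (u + H) →
      (∀ k ∈ A, Sifted (1 / 2) H Z k) → (∀ k ∈ A, P k) →
      (A.card : ℝ) ≤ ε / 4 * H * Pool.Agent.Y843.HS.VV Z 0 ⌊(H : ℝ) ^ (1 / 2 : ℝ)⌋₊) →
    Few r κ ε u H P := by
  obtain ⟨H₁, hp⟩ := Pool.Agent.H95SD.small_primes ε hε
  refine ⟨H₁, fun H u hH P h1 h2 => ⟨?_, fun Z hZ => ?_⟩⟩
  · refine hp H u hH _ (filter_subset _ _) (fun n hn => (mem_filter.1 hn).2.1) fun A' hA' hsf => ?_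
    exact h2 _ (sieve_primes H) A' (hA'.trans (filter_subset _ _)) hsf
      (fun k hk => (mem_filter.1 (hA' hk)).2.2)
  · rw [expected_eq, ← mul_assoc]
    exact h1 Z hZ _ (filter_subset _ _) (fun k hk => (mem_filter.1 hk).2.1)
      (fun k hk => (mem_filter.1 hk).2.2)

/-- **Main theorem**, see the head of the file. -/
theorem result : ∃ B : ℕ,
    (∀ m : ℕ, 1 ≤ m → ∃ ℓ : ℕ,
      (∀ f g : ℤ × ℤ, Adm f → Adm g → g ≠ (0, 1) → comp f g = pw g m f →
        (∀ k < ℓ, Adm (pw g k f) ∧ pw g k f ≠ (0, 1)) → ∃ k < ℓ, Good B (pw g k f)) ∧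
      ∀ d d' : ℕ, ∃ C x₀ : ℕ, ∀ f g : ℤ × ℤ, f.2 = d → g.2 = d' → Adm f → Adm g → g ≠ (0, 1) →
        comp f g = pw g m f → (∀ k < ℓ, Adm (pw g k f) ∧ pw g k f ≠ (0, 1)) →
        ∀ x : ℕ, x₀ ≤ x → (C : ℤ) * |f.1| ≤ x → (C : ℤ) * |g.1| ≤ x →
          ∃ k < ℓ, GoodAt B x (pw g k f)) ∧
    (∀ m : ℕ, 1 ≤ m → ∀ (r : ℕ) (κ ε : ℝ), 0 < κ → 0 < ε → ∃ H₀ : ℕ, ∀ H u : ℕ, H₀ ≤ H →
      ∀ f g : ℤ × ℤ, Adm f → Adm g → g ≠ (0, 1) → comp f g = pw g m f →
      Few r κ ε u H (fun k => Adm (pw g k f) ∧ pw g k f ≠ (0, 1) ∧ ¬ Good B (pw g k f))) ∧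
    (∀ d : ℕ, 1 ≤ d → ∃ C x₀ : ℕ, ∀ (r : ℕ) (κ ε : ℝ), 0 < κ → 0 < ε → ∃ H₀ : ℕ,
      ∀ H u : ℕ, H₀ ≤ H → ∀ σ : ℤ, (σ = 1 ∨ σ = -1) →
      Few r κ ε u H (fun a => Adm (σ * a, d) ∧ ¬ Good B (σ * a, d)) ∧
      ∀ x : ℕ, x₀ ≤ x → C * (u + H) ≤ x →
        Few r κ ε u H (fun a => Adm (σ * a, d) ∧ ¬ GoodAt B x (σ * a, d))) := by
  obtain ⟨B, h⟩ := main_inf
  refine ⟨B, fun m hm => ?_, fun m hm => ?_, fun d hd => ?_⟩
  · obtain ⟨l, hl, h1, h2⟩ := h m hm
    refine ⟨l, fun f g hf hg hg1 hfg hj => ?_, fun d d' => ?_⟩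
    · obtain ⟨j, hjl, hG⟩ := h1 (toAf f) (toAf g) hf.1 hg.1 hf.2 hg.2 ((ne_one_iff g).1 hg1)
        (rel_of hfg) (fun j hjl => by
          rw [← toAf_pw]
          exact ⟨(hj j hjl).1.2, (ne_one_iff _).1 (hj j hjl).2⟩)
      rw [← toAf_pw] at hG
      exact ⟨j, hjl, (good_iff B _).2 hG⟩
    · by_cases hdd : 1 ≤ d ∧ 1 ≤ d'
      · obtain ⟨C, x₀, h3⟩ := h2 d d' hdd.1 hdd.2
        refine ⟨C, x₀, fun f g hfd hgd hf hg hg1 hfg hj x hx hCf hCg => ?_⟩
        obtain ⟨j, hjl, hG⟩ := h3 (toAf f) (toAf g) hfd hgd hf.2 hg.2 ((ne_one_iff g).1 hg1)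
          (rel_of hfg) (fun j hjl => by
            rw [← toAf_pw]
            exact ⟨(hj j hjl).1.2, (ne_one_iff _).1 (hj j hjl).2⟩) x hx hCf hCg
        rw [← toAf_pw] at hG
        exact ⟨j, hjl, (goodAt_iff B x _).2 hG⟩
      · refine ⟨0, 0, fun f g hfd hgd hf hg => ?_⟩
        exfalso
        have k1 := hf.1
        have k2 := hg.1
        rw [hfd] at k1
        rw [hgd] at k2
        exact hdd ⟨by exact_mod_cast k1, by exact_mod_cast k2⟩
  · obtain ⟨l, hl, h1, -⟩ := h m hm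
    intro r κ ε hκ hε
    obtain ⟨H₁, hf1⟩ := few_of r κ ε hε
    obtain ⟨H₂, he1⟩ := expo hl h1 r κ ε hκ hε
    obtain ⟨H₃, he2⟩ := expo hl h1 1 (1 / 2) (ε / 4) (by norm_num) (by positivity)
    refine ⟨max H₁ (max H₂ H₃), fun H u hH f g hf hg hg1 hfg => ?_⟩
    have hP : ∀ k : ℕ, (Adm (pw g k f) ∧ pw g k f ≠ (0, 1) ∧ ¬ Good B (pw g k f)) →
        (toAf g ^ k * toAf f).Adm ∧ toAf g ^ k * toAf f ≠ 1 ∧ ¬ Gd B (toAf g ^ k * toAf f) := by
      rintro k ⟨k1, k2, k3⟩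
      rw [← toAf_pw]
      exact ⟨k1.2, (ne_one_iff _).1 k2, fun h => k3 ((good_iff B _).2 h)⟩
    refine hf1 H u ((le_max_left _ _).trans hH) _ ?_ ?_
    · intro Z hZ A hA hs hb
      exact he1 H u (by omega) Z hZ (toAf f) (toAf g) hf.1 hg.1 hf.2 hg.2 ((ne_one_iff g).1 hg1)
        (rel_of hfg) A hA hs (fun k hk => hP k (hb k hk))
    · intro Z hZ A hA hs hb
      exact he2 H u (by omega) Z hZ (toAf f) (toAf g) hf.1 hg.1 hf.2 hg.2 ((ne_one_iff g).1 hg1)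
        (rel_of hfg) A hA hs (fun k hk => hP k (hb k hk))
  · obtain ⟨l, hl, h1, h2⟩ := h d hd
    obtain ⟨C, x₀, hc⟩ := consts hd hl h1 h2
    refine ⟨C, x₀, fun r κ ε hκ hε => ?_⟩
    obtain ⟨H₁, hf1⟩ := few_of r κ ε hε
    obtain ⟨H₂, he1⟩ := hc r κ ε hκ hε
    obtain ⟨H₃, he2⟩ := hc 1 (1 / 2) (ε / 4) (by norm_num) (by positivity)
    refine ⟨max H₁ (max H₂ H₃), fun H u hH σ hσ => ⟨?_, fun x hx hCx => ?_⟩⟩
    · refine hf1 H u ((le_max_left _ _).trans hH) _ ?_ ?_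
      · intro Z hZ A hA hs hb
        exact he1 H u (by omega) Z hZ σ hσ A hA hs (fun k hk => (hb k hk).1.2)
          (Or.inl fun k hk hG => (hb k hk).2 ((good_iff B _).2 hG))
      · intro Z hZ A hA hs hb
        exact he2 H u (by omega) Z hZ σ hσ A hA hs (fun k hk => (hb k hk).1.2)
          (Or.inl fun k hk hG => (hb k hk).2 ((good_iff B _).2 hG))
    · refine hf1 H u ((le_max_left _ _).trans hH) _ ?_ ?_
      · intro Z hZ A hA hs hb
        exact he1 H u (by omega) Z hZ σ hσ A hA hs (fun k hk => (hb k hk).1.2)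
          (Or.inr ⟨x, hx, hCx, fun k hk hG => (hb k hk).2 ((goodAt_iff B x _).2 hG)⟩)
      · intro Z hZ A hA hs hb
        exact he2 H u (by omega) Z hZ σ hσ A hA hs (fun k hk => (hb k hk).1.2)
          (Or.inr ⟨x, hx, hCx, fun k hk hG => (hb k hk).2 ((goodAt_iff B x _).2 hG)⟩)

end Pool.Agent.Results.MP_8bf9c2_nt.PrimesAsShifts
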